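import Mathlib

/-!
The automorphism group of a connected locally finite graph, with the topology of pointwise
convergence: locally compact, Hausdorff, compactly generated; simply transitive subgroups are
cocompact lattices.
-/

set_option autoImplicit false

namespace Pool.Agent.P.MP_3426c0_an

open Topology Pointwise

variable {X : Type} (r : X → X → Prop)

/-- points reachable from `o` in `n` steps -/
def ball (o : X) : ℕ → Set X
  | 0 => {o}
  | n + 1 => {q | ∃ p ∈ ball o n, r p q}

variable {r}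

theorem ball_finite (hfin : ∀ p, {q | r p q}.Finite) (o : X) (n : ℕ) : (ball r o n).Finite := by
  induction n with
  | zero => exact Set.finite_singleton o
  | succ n ih =>
    have : ball r o (n + 1) = ⋃ p ∈ ball r o n, {q | r p q} := by
      ext q; simp [ball]
    rw [this]
    exact ih.biUnion fun p _ => hfin p

theorem map_mem_ball (g : r ≃r r) (o : X) (n : ℕ) : ∀ q ∈ ball r o n, g q ∈ ball r (g o) n := by
  induction n with
  | zero => intro q hq; simp [ball] at hq ⊢; rw [hq]
  | succ n ih =>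
    rintro q ⟨p, hp, hpq⟩
    exact ⟨g p, ih p hp, g.map_rel_iff.2 hpq⟩

/-- the elements of a subgroup moving the base point by one step -/
def gens (Γ : Subgroup (r ≃r r)) (o : X) : Set Γ := {γ | r o ((γ : r ≃r r) o)}

theorem mem_gens_pow (hrefl : ∀ p, r p p) (Γ : Subgroup (r ≃r r)) (o : X)
    (htr : ∀ q, ∃ γ ∈ Γ, γ o = q) (n : ℕ) :
    ∀ γ : Γ, (γ : r ≃r r) o ∈ ball r o n → γ ∈ gens Γ o ^ (n + 1) := by
  induction n with
  | zero =>
    intro γ h
    simp only [ball, Set.mem_singleton_iff] at h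
    simp only [zero_add, pow_one, gens, Set.mem_ofPred_eq, h]
    exact hrefl o
  | succ n ih =>
    rintro γ ⟨p, hp, hpq⟩
    obtain ⟨δ, hδ, rfl⟩ := htr p
    have h1 := ih ⟨δ, hδ⟩ hp
    rw [pow_succ]
    refine ⟨_, h1, (⟨δ, hδ⟩ : Γ)⁻¹ * γ, ?_, by simp⟩
    have := (δ⁻¹ : r ≃r r).map_rel_iff.2 hpq
    simpa [gens, RelIso.mul_apply] using this

theorem closure_gens (hrefl : ∀ p, r p p) (Γ : Subgroup (r ≃r r)) (o : X)
    (hconn : ∀ q, ∃ n, q ∈ ball r o n) (htr : ∀ q, ∃ γ ∈ Γ, γ o = q) :
    Subgroup.closure (gens Γ o) = ⊤ := by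
  rw [eq_top_iff]
  intro γ _
  obtain ⟨n, hn⟩ := hconn ((γ : r ≃r r) o)
  have h := mem_gens_pow hrefl Γ o htr n γ hn
  have : ∀ m, gens Γ o ^ m ⊆ Subgroup.closure (gens Γ o) := by
    intro m
    induction m with
    | zero => intro x hx; simp at hx; simp [hx]
    | succ m ih =>
      rw [pow_succ]
      rintro _ ⟨x, hx, y, hy, rfl⟩
      exact mul_mem (ih hx) (Subgroup.subset_closure hy)
  exact this _ h

theorem gens_finite (hfin : ∀ p, {q | r p q}.Finite) (Γ : Subgroup (r ≃r r)) (o : X)
    (hfree : ∀ γ ∈ Γ, γ o = o → γ = 1) : (gens Γ o).Finite := by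
  refine Set.Finite.of_finite_image (f := fun γ : Γ => (γ : r ≃r r) o) ((hfin o).subset ?_) ?_
  · rintro _ ⟨γ, hγ, rfl⟩
    exact hγ
  · intro γ _ δ _ h
    have := hfree (δ⁻¹ * γ) (δ⁻¹ * γ).2 (by
      simp only at h
      simp [RelIso.mul_apply, h])
    have h2 : δ⁻¹ * γ = 1 := Subtype.ext this
    exact (inv_mul_eq_one.1 h2).symm

variable [TopologicalSpace X] [DiscreteTopology X]

/-- an automorphism and its inverse, as plain maps -/
def pairMap (g : r ≃r r) : (X → X) × (X → X) := (g, (g⁻¹ : r ≃r r))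

instance autTop : TopologicalSpace (r ≃r r) := TopologicalSpace.induced pairMap inferInstance

omit [DiscreteTopology X] in
theorem isEmbedding_pairMap : IsEmbedding (pairMap : (r ≃r r) → _) :=
  ⟨⟨rfl⟩, fun _ _ e => RelIso.ext fun x => congrFun (congrArg Prod.fst e) x⟩

omit [DiscreteTopology X] in
theorem continuous_ev (x : X) : Continuous fun g : r ≃r r => g x :=
  (continuous_apply x).comp (continuous_fst.comp isEmbedding_pairMap.continuous)

omit [DiscreteTopology X] in
theorem continuous_ev_inv (x : X) : Continuous fun g : r ≃r r => g⁻¹ x :=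
  (continuous_apply x).comp (continuous_snd.comp isEmbedding_pairMap.continuous)

omit [DiscreteTopology X] in
theorem continuous_to_aut {Y : Type} [TopologicalSpace Y] (f : Y → r ≃r r)
    (h1 : ∀ x, Continuous fun y => f y x) (h2 : ∀ x, Continuous fun y => (f y)⁻¹ x) :
    Continuous f :=
  isEmbedding_pairMap.continuous_iff.2 ((continuous_pi h1).prodMk (continuous_pi h2))

theorem continuous_ev₂ {Y : Type} [TopologicalSpace Y] (f : Y → X → X) (p : Y → X)
    (hf : ∀ x, Continuous fun y => f y x) (hp : Continuous p) :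
    Continuous fun y => f y (p y) := by
  rw [continuous_iff_continuousAt]
  intro y
  have h : ∀ᶠ z in 𝓝 y, p z = p y :=
    hp.continuousAt.eventually ((isOpen_discrete {p y}).mem_nhds rfl)
  refine (hf (p y)).continuousAt.congr ?_
  filter_upwards [h] with z hz
  rw [hz]

instance : IsTopologicalGroup (r ≃r r) where
  continuous_mul := by
    refine continuous_to_aut _ (fun x => ?_) (fun x => ?_)
    · exact continuous_ev₂ (fun p : (r ≃r r) × (r ≃r r) => p.1) (fun p => p.2 x)
        (fun z => (continuous_ev z).comp continuous_fst) ((continuous_ev x).comp continuous_snd)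
    · simp only [mul_inv_rev, RelIso.mul_apply]
      exact continuous_ev₂ (fun p : (r ≃r r) × (r ≃r r) => (p.2⁻¹ : r ≃r r)) (fun p => p.1⁻¹ x)
        (fun z => (continuous_ev_inv z).comp continuous_snd)
        ((continuous_ev_inv x).comp continuous_fst)
  continuous_inv := by
    refine continuous_to_aut _ (fun x => continuous_ev_inv x) (fun x => ?_)
    simp only [inv_inv]
    exact continuous_ev x

instance : T2Space (r ≃r r) := isEmbedding_pairMap.t2Space

theorem isClosed_range_pairMap : IsClosed (Set.range (pairMap : (r ≃r r) → _)) := by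
  have : Set.range (pairMap : (r ≃r r) → _) =
      (⋂ x, {φ : (X → X) × (X → X) | φ.1 (φ.2 x) = x}) ∩ (⋂ x, {φ | φ.2 (φ.1 x) = x}) ∩
        ⋂ p, ⋂ q, {φ | r (φ.1 p) (φ.1 q) ↔ r p q} := by
    ext φ
    simp only [Set.mem_range, Set.mem_inter_iff, Set.mem_iInter, Set.mem_ofPred_eq]
    constructor
    · rintro ⟨g, rfl⟩
      exact ⟨⟨fun x => g.apply_inv_self x, fun x => g.inv_apply_self x⟩,
        fun p q => g.map_rel_iff⟩
    · rintro ⟨⟨h1, h2⟩, h3⟩
      exact ⟨⟨⟨φ.1, φ.2, h2, h1⟩, fun {p q} => h3 p q⟩, rfl⟩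
  rw [this]
  have c1 : ∀ x, Continuous fun φ : (X → X) × (X → X) => φ.1 x :=
    fun x => (continuous_apply x).comp continuous_fst
  have c2 : ∀ x, Continuous fun φ : (X → X) × (X → X) => φ.2 x :=
    fun x => (continuous_apply x).comp continuous_snd
  refine (IsClosed.inter (isClosed_iInter fun x => ?_) (isClosed_iInter fun x => ?_)).inter
    (isClosed_iInter fun p => isClosed_iInter fun q => ?_)
  · exact isClosed_eq (continuous_ev₂ (fun φ : (X → X) × (X → X) => φ.1) _ c1 (c2 x))
      continuous_const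
  · exact isClosed_eq (continuous_ev₂ (fun φ : (X → X) × (X → X) => φ.2) _ c2 (c1 x))
      continuous_const
  · exact (isClosed_discrete {u : X × X | r u.1 u.2 ↔ r p q}).preimage ((c1 p).prodMk (c1 q))

theorem isCompact_fiber (hfin : ∀ p, {q | r p q}.Finite) (o q : X)
    (hconn : ∀ a b, ∃ n, b ∈ ball r a n) : IsCompact {g : r ≃r r | g o = q} := by
  have hce : IsClosedEmbedding (pairMap : (r ≃r r) → _) :=
    ⟨isEmbedding_pairMap, isClosed_range_pairMap⟩
  choose N hN using hconn
  have hK : IsCompact ((Set.pi Set.univ fun x => ball r q (N o x)) ×ˢ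
      (Set.pi Set.univ fun x => ball r o (N q x))) :=
    (isCompact_univ_pi fun x => (ball_finite hfin _ _).isCompact).prod
      (isCompact_univ_pi fun x => (ball_finite hfin _ _).isCompact)
  refine (hce.isCompact_preimage hK).of_isClosed_subset
    (isClosed_eq (continuous_ev o) continuous_const) ?_
  intro g hg
  simp only [Set.mem_ofPred_eq] at hg
  refine ⟨fun x _ => ?_, fun x _ => ?_⟩
  · have := map_mem_ball g o _ x (hN o x)
    rwa [hg] at this
  · have := map_mem_ball g⁻¹ q _ x (hN q x)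
    rwa [← hg, RelIso.inv_apply_self, hg] at this

theorem isOpen_fiber (o q : X) : IsOpen {g : r ≃r r | g o = q} :=
  (isOpen_discrete {q}).preimage (continuous_ev o)

theorem locallyCompact_aut (hfin : ∀ p, {q | r p q}.Finite) (o : X)
    (hconn : ∀ a b, ∃ n, b ∈ ball r a n) : LocallyCompactSpace (r ≃r r) :=
  (isCompact_fiber hfin o o hconn).locallyCompactSpace_of_mem_nhds_of_group (x := 1)
    ((isOpen_fiber o o).mem_nhds rfl)

theorem compactly_generated (hrefl : ∀ p, r p p) (hfin : ∀ p, {q | r p q}.Finite) (o : X)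
    (hconn : ∀ a b, ∃ n, b ∈ ball r a n) (htr : ∀ q, ∃ γ : r ≃r r, γ o = q) :
    ∃ K : Set (r ≃r r), IsCompact K ∧ Subgroup.closure K = ⊤ := by
  refine ⟨⋃ q ∈ {q | r o q}, {g : r ≃r r | g o = q},
    (hfin o).isCompact_biUnion fun q _ => isCompact_fiber hfin o q hconn, ?_⟩
  have h := closure_gens hrefl (⊤ : Subgroup (r ≃r r)) o (hconn o)
    fun q => (htr q).imp fun γ h => ⟨trivial, h⟩
  have h2 := congrArg (Subgroup.map (⊤ : Subgroup (r ≃r r)).subtype) h
  rw [MonoidHom.map_closure, ← MonoidHom.range_eq_map, Subgroup.range_subtype] at h2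
  rw [eq_top_iff, ← h2]
  refine Subgroup.closure_mono ?_
  rintro _ ⟨γ, hγ, rfl⟩
  simpa [gens] using hγ

theorem discrete_of_free (Γ : Subgroup (r ≃r r)) (o : X) (hfree : ∀ γ ∈ Γ, γ o = o → γ = 1) :
    DiscreteTopology Γ := by
  refine discreteTopology_of_isOpen_singleton_one ?_
  have : ({1} : Set Γ) = Subtype.val ⁻¹' {g : r ≃r r | g o = o} := by
    ext γ
    simp only [Set.mem_singleton_iff, Set.mem_preimage, Set.mem_ofPred_eq]
    exact ⟨fun h => by rw [h]; rfl, fun h => Subtype.ext (hfree γ γ.2 h)⟩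
  rw [this]
  exact (isOpen_fiber o o).preimage continuous_subtype_val

theorem cocompact_of_transitive (hfin : ∀ p, {q | r p q}.Finite) (o : X)
    (hconn : ∀ a b, ∃ n, b ∈ ball r a n) (Γ : Subgroup (r ≃r r))
    (htr : ∀ q, ∃ γ ∈ Γ, γ o = q) : CompactSpace ((r ≃r r) ⧸ Γ) := by
  have h := (isCompact_fiber hfin o o hconn).image
    (QuotientGroup.continuous_mk (N := Γ))
  refine ⟨?_⟩
  convert h using 1
  symm
  rw [Set.eq_univ_iff_forall]
  intro x
  obtain ⟨g, rfl⟩ := QuotientGroup.mk_surjective x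
  obtain ⟨γ, hγ, h⟩ := htr (g⁻¹ o)
  refine ⟨g * γ, by simp [RelIso.mul_apply, h], ?_⟩
  rw [QuotientGroup.eq]
  simpa using hγ

end Pool.Agent.P.MP_3426c0_an
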