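import Mathlib

/-!
Centroid structures give the rapid decay inequality (three-point Cauchy-Schwarz).
-/

set_option autoImplicit false

namespace Pool.Agent.P.MP_3426c0_an

open Finset

/-- `Pre n e` is a small set of initial points of `e`; every pair `y, x` with `y` short has a
centroid lying in the three relevant sets. -/
def HasCentroid (E : Type) [Group E] (len : E → ℕ) (P : ℕ → ℕ) : Prop :=
  ∃ Pre : ℕ → E → Finset E, (∀ n e, (Pre n e).card ≤ P n) ∧
    ∀ n y x, len y ≤ n → ∃ a, a ∈ Pre n y ∧ a ∈ Pre n x ∧ y⁻¹ * a ∈ Pre n (y⁻¹ * x)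

theorem trilinear {α β γ : Type} (A : Finset α) (B : Finset β) (C : Finset γ)
    (F : α → β → ℝ) (G : β → γ → ℝ) (H : α → γ → ℝ) :
    (∑ a ∈ A, ∑ c ∈ C, ∑ b ∈ B, F a b * G b c * H a c) ^ 2 ≤
      (∑ a ∈ A, ∑ b ∈ B, F a b ^ 2) * (∑ b ∈ B, ∑ c ∈ C, G b c ^ 2) *
        (∑ a ∈ A, ∑ c ∈ C, H a c ^ 2) := by
  have h1 : (∑ a ∈ A, ∑ c ∈ C, ∑ b ∈ B, F a b * G b c * H a c)
      = ∑ p ∈ A ×ˢ C, (∑ b ∈ B, F p.1 b * G b p.2) * H p.1 p.2 := by
    rw [Finset.sum_product]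
    refine Finset.sum_congr rfl fun a _ => Finset.sum_congr rfl fun c _ => ?_
    rw [Finset.sum_mul]
  have h2 := Finset.sum_mul_sq_le_sq_mul_sq (A ×ˢ C)
    (fun p : α × γ => ∑ b ∈ B, F p.1 b * G b p.2) (fun p : α × γ => H p.1 p.2)
  have h3 : ∑ p ∈ A ×ˢ C, (∑ b ∈ B, F p.1 b * G b p.2) ^ 2 ≤
      (∑ a ∈ A, ∑ b ∈ B, F a b ^ 2) * (∑ b ∈ B, ∑ c ∈ C, G b c ^ 2) := by
    rw [Finset.sum_comm (s := B) (t := C), Finset.sum_mul_sum, Finset.sum_product]
    refine Finset.sum_le_sum fun a _ => Finset.sum_le_sum fun c _ => ?_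
    exact Finset.sum_mul_sq_le_sq_mul_sq B (fun b => F a b) (fun b => G b c)
  have h4 : ∑ p ∈ A ×ˢ C, H p.1 p.2 ^ 2 = ∑ a ∈ A, ∑ c ∈ C, H a c ^ 2 := by
    rw [Finset.sum_product]
  rw [h1, ← h4]
  refine h2.trans ?_
  exact mul_le_mul_of_nonneg_right h3 (Finset.sum_nonneg fun _ _ => sq_nonneg _)

theorem sum_le_of_zero_off {E : Type} [DecidableEq E] (f : E → ℝ) (hf : ∀ e, 0 ≤ f e)
    (S T : Finset E) (hS : ∀ e, e ∉ S → f e = 0) : ∑ e ∈ T, f e ≤ ∑ e ∈ S, f e := by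
  have h1 : ∑ e ∈ T, f e ≤ ∑ e ∈ S ∪ T, f e :=
    Finset.sum_le_sum_of_subset_of_nonneg Finset.subset_union_right fun e _ _ => hf e
  have h2 : ∑ e ∈ S, f e = ∑ e ∈ S ∪ T, f e :=
    Finset.sum_subset Finset.subset_union_left fun e _ he => hS e he
  rw [h2]; exact h1

theorem sum_pre_le {E : Type} [Group E] [DecidableEq E] (Pre : E → Finset E) (P : ℕ)
    (hP : ∀ e, (Pre e).card ≤ P) (U : E → ℝ) (S : Finset E) (hS : ∀ e, e ∉ S → U e = 0)
    (A B : Finset E) :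
    ∑ a ∈ A, ∑ b ∈ B, (if a ∈ Pre (a * b) then U (a * b) else 0) ^ 2 ≤
      P * ∑ e ∈ S, U e ^ 2 := by
  have h1 : ∀ a ∈ A, ∑ b ∈ B, (if a ∈ Pre (a * b) then U (a * b) else 0) ^ 2 ≤
      ∑ e ∈ S, (if a ∈ Pre e then U e else 0) ^ 2 := by
    intro a _
    have : ∑ b ∈ B, (if a ∈ Pre (a * b) then U (a * b) else 0) ^ 2 =
        ∑ e ∈ B.image (fun b => a * b), (if a ∈ Pre e then U e else 0) ^ 2 := by
      rw [Finset.sum_image]
      intro x _ y _ h
      exact mul_left_cancel h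
    rw [this]
    refine sum_le_of_zero_off _ (fun _ => sq_nonneg _) _ _ fun e he => ?_
    simp [hS e he]
  refine (Finset.sum_le_sum h1).trans ?_
  rw [Finset.sum_comm, Finset.mul_sum]
  refine Finset.sum_le_sum fun e _ => ?_
  have : ∑ a ∈ A, (if a ∈ Pre e then U e else 0) ^ 2 = ∑ a ∈ A ∩ Pre e, U e ^ 2 := by
    rw [← Finset.sum_ite_mem]
    refine Finset.sum_congr rfl fun a _ => ?_
    split_ifs <;> simp
  rw [this, Finset.sum_const, nsmul_eq_mul]
  refine mul_le_mul_of_nonneg_right ?_ (sq_nonneg _)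
  exact_mod_cast (Finset.card_le_card Finset.inter_subset_right).trans (hP e)

theorem HasCentroid.trilinear_bound {E : Type} [Group E] {len : E → ℕ} {P : ℕ → ℕ}
    (h : HasCentroid E len P) (n : ℕ) (U V W : E → ℝ) (hU : ∀ e, 0 ≤ U e) (hV : ∀ e, 0 ≤ V e)
    (hW : ∀ e, 0 ≤ W e) (SU SV SW : Finset E) (hSU : ∀ e, e ∉ SU → U e = 0)
    (hSV : ∀ e, e ∉ SV → V e = 0) (hSW : ∀ e, e ∉ SW → W e = 0)
    (hlen : ∀ y ∈ SU, len y ≤ n) :
    (∑ x ∈ SW, ∑ y ∈ SU, U y * V (y⁻¹ * x) * W x) ^ 2 ≤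
      (P n : ℝ) ^ 3 * (∑ e ∈ SU, U e ^ 2) * (∑ e ∈ SV, V e ^ 2) * (∑ e ∈ SW, W e ^ 2) := by
  classical
  obtain ⟨Pre, hP, hc⟩ := h
  have hc' : ∀ y x, ∃ a, len y ≤ n → a ∈ Pre n y ∧ a ∈ Pre n x ∧ y⁻¹ * a ∈ Pre n (y⁻¹ * x) := by
    intro y x
    by_cases hy : len y ≤ n
    · obtain ⟨a, ha⟩ := hc n y x hy
      exact ⟨a, fun _ => ha⟩
    · exact ⟨1, fun h => absurd h hy⟩
  choose m hm using hc'
  set F : E → E → ℝ := fun a b => if a ∈ Pre n (a * b) then U (a * b) else 0 with hF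
  set G : E → E → ℝ := fun b c => if b⁻¹ ∈ Pre n (b⁻¹ * c) then V (b⁻¹ * c) else 0 with hG
  set H : E → E → ℝ := fun a c => if a ∈ Pre n (a * c) then W (a * c) else 0 with hH
  have hF0 : ∀ a b, 0 ≤ F a b := fun a b => by simp only [hF]; split_ifs <;> simp [hU]
  have hG0 : ∀ a b, 0 ≤ G a b := fun a b => by simp only [hG]; split_ifs <;> simp [hV]
  have hH0 : ∀ a b, 0 ≤ H a b := fun a b => by simp only [hH]; split_ifs <;> simp [hW]
  set Z : Finset (E × E) := SW ×ˢ SU with hZ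
  set φ : E × E → E × E × E := fun p => (m p.2 p.1, (m p.2 p.1)⁻¹ * p.1, (m p.2 p.1)⁻¹ * p.2)
    with hφ
  set A : Finset E := Z.image fun p => (φ p).1 with hA
  set C : Finset E := Z.image fun p => (φ p).2.1 with hC
  set B : Finset E := Z.image fun p => (φ p).2.2 with hB
  have hinj : Function.Injective φ := by
    intro p q hpq
    simp only [hφ, Prod.mk.injEq] at hpq
    obtain ⟨h1, h2, h3⟩ := hpq
    rw [h1] at h2 h3
    exact Prod.ext (mul_left_cancel h2) (mul_left_cancel h3)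
  have hT : ∑ x ∈ SW, ∑ y ∈ SU, U y * V (y⁻¹ * x) * W x ≤
      ∑ a ∈ A, ∑ c ∈ C, ∑ b ∈ B, F a b * G b c * H a c := by
    have e1 : ∑ x ∈ SW, ∑ y ∈ SU, U y * V (y⁻¹ * x) * W x =
        ∑ t ∈ Z.image φ, F t.1 t.2.2 * G t.2.2 t.2.1 * H t.1 t.2.1 := by
      rw [Finset.sum_image fun p _ q _ h => hinj h, hZ, Finset.sum_product]
      refine Finset.sum_congr rfl fun x _ => Finset.sum_congr rfl fun y hy => ?_
      obtain ⟨k1, k2, k3⟩ := hm y x (hlen y hy)
      simp [hφ, hF, hG, hH, k1, k2, k3, mul_assoc]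
    have e2 : ∑ a ∈ A, ∑ c ∈ C, ∑ b ∈ B, F a b * G b c * H a c =
        ∑ t ∈ A ×ˢ C ×ˢ B, F t.1 t.2.2 * G t.2.2 t.2.1 * H t.1 t.2.1 := by
      rw [Finset.sum_product]
      refine Finset.sum_congr rfl fun a _ => ?_
      rw [Finset.sum_product]
    rw [e1, e2]
    refine Finset.sum_le_sum_of_subset_of_nonneg ?_ fun t _ _ =>
      mul_nonneg (mul_nonneg (hF0 _ _) (hG0 _ _)) (hH0 _ _)
    intro t ht
    obtain ⟨p, hp, rfl⟩ := Finset.mem_image.1 ht
    simp only [Finset.mem_product]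
    exact ⟨Finset.mem_image_of_mem _ hp, Finset.mem_image_of_mem _ hp,
      Finset.mem_image_of_mem _ hp⟩
  have hT0 : 0 ≤ ∑ x ∈ SW, ∑ y ∈ SU, U y * V (y⁻¹ * x) * W x :=
    Finset.sum_nonneg fun x _ => Finset.sum_nonneg fun y _ =>
      mul_nonneg (mul_nonneg (hU _) (hV _)) (hW _)
  have b1 := sum_pre_le (Pre n) (P n) (hP n) U SU hSU A B
  have b3 := sum_pre_le (Pre n) (P n) (hP n) W SW hSW A C
  have b2 : ∑ b ∈ B, ∑ c ∈ C, G b c ^ 2 ≤ P n * ∑ e ∈ SV, V e ^ 2 := by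
    have := sum_pre_le (Pre n) (P n) (hP n) V SV hSV (B.image fun b => b⁻¹) C
    rwa [Finset.sum_image fun x _ y _ h => inv_injective h] at this
  have s1 : 0 ≤ ∑ a ∈ A, ∑ b ∈ B, F a b ^ 2 :=
    Finset.sum_nonneg fun _ _ => Finset.sum_nonneg fun _ _ => sq_nonneg _
  have s2 : 0 ≤ ∑ b ∈ B, ∑ c ∈ C, G b c ^ 2 :=
    Finset.sum_nonneg fun _ _ => Finset.sum_nonneg fun _ _ => sq_nonneg _
  have s3 : 0 ≤ ∑ a ∈ A, ∑ c ∈ C, H a c ^ 2 :=
    Finset.sum_nonneg fun _ _ => Finset.sum_nonneg fun _ _ => sq_nonneg _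
  calc _ ≤ (∑ a ∈ A, ∑ c ∈ C, ∑ b ∈ B, F a b * G b c * H a c) ^ 2 := by gcongr
    _ ≤ _ := trilinear A B C F G H
    _ ≤ (P n * ∑ e ∈ SU, U e ^ 2) * (P n * ∑ e ∈ SV, V e ^ 2) * (P n * ∑ e ∈ SW, W e ^ 2) := by
        gcongr
    _ = _ := by ring

/-- The rapid decay inequality for a group embedded in a group with a centroid structure. -/
theorem HasCentroid.rd {E : Type} [Group E] {len : E → ℕ} {P : ℕ → ℕ}
    (h : HasCentroid E len P) {Γ : Type} [Group Γ] (ι : Γ →* E) (hι : Function.Injective ι)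
    (n : ℕ) (f g : Γ →₀ ℂ) (hf : ∀ y ∈ f.support, len (ι y) ≤ n) :
    (∑' x : Γ, ‖∑ y ∈ f.support, f y * g (y⁻¹ * x)‖ ^ 2) ≤
      (P n : ℝ) ^ 3 * (∑ y ∈ f.support, ‖f y‖ ^ 2) * (∑ y ∈ g.support, ‖g y‖ ^ 2) := by
  classical
  set ψ : Γ → ℝ := fun x => ‖∑ y ∈ f.support, f y * g (y⁻¹ * x)‖ with hψ
  set X : Finset Γ := Finset.image₂ (· * ·) f.support g.support with hX
  have hψ0 : ∀ x, x ∉ X → ψ x = 0 := by
    intro x hx
    simp only [hψ, norm_eq_zero]
    refine Finset.sum_eq_zero fun y hy => ?_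
    have : g (y⁻¹ * x) = 0 := by
      by_contra hne
      apply hx
      rw [hX, Finset.mem_image₂]
      exact ⟨y, hy, y⁻¹ * x, Finsupp.mem_support_iff.2 hne, by simp⟩
    simp [this]
  have htsum : (∑' x : Γ, ψ x ^ 2) = ∑ x ∈ X, ψ x ^ 2 :=
    tsum_eq_sum fun x hx => by simp [hψ0 x hx]
  rw [htsum]
  set ext : (Γ → ℝ) → E → ℝ := fun u => Function.extend ι u 0 with hext
  have hext1 : ∀ u x, ext u (ι x) = u x := fun u x => hι.extend_apply u 0 x
  have hext0 : ∀ u : Γ → ℝ, (∀ x, 0 ≤ u x) → ∀ e, 0 ≤ ext u e := by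
    intro u hu e
    by_cases he : ∃ x, ι x = e
    · obtain ⟨x, rfl⟩ := he
      rw [hext1]; exact hu x
    · simp [hext, Function.extend_apply' _ _ _ he]
  have hextS : ∀ (u : Γ → ℝ) (S : Finset Γ), (∀ x, x ∉ S → u x = 0) →
      ∀ e, e ∉ S.image ι → ext u e = 0 := by
    intro u S hu e he
    by_cases he' : ∃ x, ι x = e
    · obtain ⟨x, rfl⟩ := he'
      rw [hext1]
      exact hu x fun hx => he (Finset.mem_image_of_mem _ hx)
    · simp [hext, Function.extend_apply' _ _ _ he']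
  have key := h.trilinear_bound n (ext fun y => ‖f y‖) (ext fun y => ‖g y‖) (ext ψ)
    (hext0 _ fun _ => norm_nonneg _) (hext0 _ fun _ => norm_nonneg _)
    (hext0 _ fun _ => norm_nonneg _) (f.support.image ι) (g.support.image ι) (X.image ι)
    (hextS _ _ fun x hx => by simpa using hx) (hextS _ _ fun x hx => by simpa using hx)
    (hextS _ _ hψ0) (by
      intro y hy
      obtain ⟨x, hx, rfl⟩ := Finset.mem_image.1 hy
      exact hf x hx)
  have hi : ∀ S : Finset Γ, Set.InjOn ι S := fun S => hι.injOn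
  simp only [Finset.sum_image (hi _), ← map_inv, ← map_mul, hext1] at key
  set N := ∑ x ∈ X, ψ x ^ 2 with hN
  have hN0 : 0 ≤ N := Finset.sum_nonneg fun _ _ => sq_nonneg _
  have hNT : N ≤ ∑ x ∈ X, ∑ y ∈ f.support, ‖f y‖ * ‖g (y⁻¹ * x)‖ * ψ x := by
    refine Finset.sum_le_sum fun x _ => ?_
    rw [← Finset.sum_mul, sq]
    refine mul_le_mul_of_nonneg_right ?_ (norm_nonneg _)
    refine (norm_sum_le _ _).trans (le_of_eq ?_)
    simp
  have hNN : N * N ≤ ((P n : ℝ) ^ 3 * (∑ y ∈ f.support, ‖f y‖ ^ 2) *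
      (∑ y ∈ g.support, ‖g y‖ ^ 2)) * N := by
    refine le_trans ?_ key
    rw [← sq]
    gcongr
  rcases hN0.eq_or_lt with h0 | h0
  · rw [← h0]; positivity
  · exact le_of_mul_le_mul_right hNN h0

theorem HasCentroid.prod {E E' : Type} [Group E] [Group E'] {len : E → ℕ} {len' : E' → ℕ}
    {P P' : ℕ → ℕ} (h : HasCentroid E len P) (h' : HasCentroid E' len' P') :
    HasCentroid (E × E') (fun e => max (len e.1) (len' e.2)) (fun n => P n * P' n) := by
  obtain ⟨Pre, hP, hc⟩ := h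
  obtain ⟨Pre', hP', hc'⟩ := h'
  refine ⟨fun n e => Pre n e.1 ×ˢ Pre' n e.2, fun n e => ?_, fun n y x hy => ?_⟩
  · rw [Finset.card_product]
    exact Nat.mul_le_mul (hP _ _) (hP' _ _)
  · obtain ⟨a, ha1, ha2, ha3⟩ := hc n y.1 x.1 ((le_max_left _ _).trans hy)
    obtain ⟨b, hb1, hb2, hb3⟩ := hc' n y.2 x.2 ((le_max_right _ _).trans hy)
    refine ⟨(a, b), ?_, ?_, ?_⟩ <;> simp [Finset.mem_product, *]

theorem exists_common_start {α : Type} (L M : List α) :
    ∃ p r s : List α, L = p ++ r ∧ M = p ++ s ∧ ∀ x ∈ r.head?, ∀ y ∈ s.head?, x ≠ y := by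
  induction L generalizing M with
  | nil => exact ⟨[], [], M, rfl, rfl, by simp⟩
  | cons a L ih =>
    cases M with
    | nil => exact ⟨[], a :: L, [], rfl, rfl, by simp⟩
    | cons b M =>
      by_cases hab : a = b
      · obtain ⟨p, r, s, h1, h2, h3⟩ := ih M
        exact ⟨a :: p, r, s, by simp [h1], by simp [h2, hab], h3⟩
      · exact ⟨[], a :: L, b :: M, rfl, rfl, by simpa using hab⟩

theorem hasCentroid_freeGroup (α : Type) [DecidableEq α] :
    HasCentroid (FreeGroup α) FreeGroup.norm (fun n => n + 1) := by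
  refine ⟨fun n e => (Finset.range (n + 1)).image fun k => FreeGroup.mk (e.toWord.take k),
    fun n e => Finset.card_image_le.trans (by simp), fun n y x hy => ?_⟩
  obtain ⟨p, r, s, h1, h2, h3⟩ := exists_common_start y.toWord x.toWord
  have hy' : y = FreeGroup.mk p * FreeGroup.mk r := by
    rw [FreeGroup.mul_mk, ← h1, FreeGroup.mk_toWord]
  have hx' : x = FreeGroup.mk p * FreeGroup.mk s := by
    rw [FreeGroup.mul_mk, ← h2, FreeGroup.mk_toWord]
  have hlen : p.length + r.length ≤ n := by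
    have : y.norm = p.length + r.length := by
      rw [FreeGroup.norm, h1, List.length_append]
    omega
  have hr : FreeGroup.IsReduced r := by
    have := FreeGroup.isReduced_toWord (x := y)
    rw [h1] at this
    exact (List.isChain_append.1 this).2.1
  have hs : FreeGroup.IsReduced s := by
    have := FreeGroup.isReduced_toWord (x := x)
    rw [h2] at this
    exact (List.isChain_append.1 this).2.1
  have hr' : FreeGroup.IsReduced (FreeGroup.invRev r) := by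
    rw [FreeGroup.isReduced_iff_reduce_eq, FreeGroup.reduce_invRev, hr.reduce_eq]
  have hrs : FreeGroup.IsReduced (FreeGroup.invRev r ++ s) := by
    unfold FreeGroup.IsReduced at *
    rw [List.isChain_append]
    refine ⟨hr', hs, ?_⟩
    intro u hu v hv huv
    cases r with
    | nil => simp [FreeGroup.invRev] at hu
    | cons a r =>
      have hu' : u = (a.1, !a.2) := by
        simp [FreeGroup.invRev] at hu
        exact hu.symm
      have hne := h3 a (by simp) v hv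
      subst hu'
      obtain ⟨a1, a2⟩ := a
      obtain ⟨v1, v2⟩ := v
      simp only at huv
      subst huv
      cases a2 <;> cases v2 <;> simp_all
  have hw : (y⁻¹ * x).toWord = FreeGroup.invRev r ++ s := by
    have : y⁻¹ * x = FreeGroup.mk (FreeGroup.invRev r ++ s) := by
      rw [← FreeGroup.mul_mk, ← FreeGroup.inv_mk, hy', hx']
      group
    rw [this, FreeGroup.toWord_mk, hrs.reduce_eq]
  refine ⟨FreeGroup.mk p, ?_, ?_, ?_⟩
  · exact Finset.mem_image.2 ⟨p.length, by simp; omega, by simp [h1]⟩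
  · exact Finset.mem_image.2 ⟨p.length, by simp; omega, by simp [h2]⟩
  · refine Finset.mem_image.2 ⟨r.length, by simp; omega, ?_⟩
    rw [hw, List.take_left' (by simp), ← FreeGroup.inv_mk, hy']
    group

end Pool.Agent.P.MP_3426c0_an
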