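import Mathlib

/-!
The left regular representation, word length and Property RD.
-/

set_option autoImplicit false

noncomputable section

namespace Pool.Agent.P.MP_3426c0_an.H

open Pointwise

variable {Γ : Type} [Group Γ]

/-- the Hilbert space `ℓ²(Γ)` -/
abbrev L2 (Γ : Type) : Type := lp (fun _ : Γ => ℂ) 2

theorem mem_shift (γ : Γ) (g : L2 Γ) : Memℓp (fun x => g (γ⁻¹ * x)) 2 := by
  have h := lp.memℓp g
  rw [memℓp_gen_iff (by simp)] at h ⊢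
  exact (Equiv.mulLeft γ⁻¹).summable_iff.2 h

/-- the left translate `g (γ⁻¹ ·)` (used in proofs only) -/
def sh (γ : Γ) (g : L2 Γ) : L2 Γ := ⟨fun x => g (γ⁻¹ * x), mem_shift γ g⟩

theorem norm_sh (γ : Γ) (g : L2 Γ) : ‖sh γ g‖ = ‖g‖ := by
  rw [lp.norm_eq_tsum_rpow (by simp), lp.norm_eq_tsum_rpow (by simp) g]
  exact congrArg (· ^ _) ((Equiv.mulLeft γ⁻¹).tsum_eq fun x => ‖g x‖ ^ (2 : ENNReal).toReal)

theorem conv_eq (f : Γ →₀ ℂ) (g : L2 Γ) : (fun x => ∑ y ∈ f.support, f y * g (y⁻¹ * x)) =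
    ⇑(∑ y ∈ f.support, f y • sh y g) := by
  funext x
  rw [lp.coeFn_sum, Finset.sum_apply]
  rfl

theorem mem_conv (f : Γ →₀ ℂ) (g : L2 Γ) :
    Memℓp (fun x => ∑ y ∈ f.support, f y * g (y⁻¹ * x)) 2 := conv_eq f g ▸ lp.memℓp _

/-- the convolution `(f * g) x = ∑ f(y) g(y⁻¹ x)` of a finitely supported `f` and `g ∈ ℓ²(Γ)` -/
def conv (f : Γ →₀ ℂ) (g : L2 Γ) : L2 Γ :=
  ⟨fun x => ∑ y ∈ f.support, f y * g (y⁻¹ * x), mem_conv f g⟩

theorem conv_add (f : Γ →₀ ℂ) (g h : L2 Γ) : conv f (g + h) = conv f g + conv f h := by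
  ext x
  simp [conv, mul_add, Finset.sum_add_distrib]

theorem conv_smul (f : Γ →₀ ℂ) (c : ℂ) (g : L2 Γ) : conv f (c • g) = c • conv f g := by
  ext x
  simp [conv, Finset.mul_sum, mul_left_comm]

/-- convolution by `f` as a linear map of `ℓ²(Γ)` -/
def convL (f : Γ →₀ ℂ) : L2 Γ →ₗ[ℂ] L2 Γ where
  toFun := conv f
  map_add' := conv_add f
  map_smul' := conv_smul f

theorem norm_convL (f : Γ →₀ ℂ) (g : L2 Γ) : ‖convL f g‖ ≤ (∑ y ∈ f.support, ‖f y‖) * ‖g‖ := by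
  have : convL f g = ∑ y ∈ f.support, f y • sh y g := Subtype.ext (conv_eq f g)
  rw [this, Finset.sum_mul]
  exact norm_sum_le_of_le _ fun y _ => by rw [norm_smul, norm_sh]

/-- the bounded operator `λ(f)` of the left regular representation -/
def lam (f : Γ →₀ ℂ) : L2 Γ →L[ℂ] L2 Γ := (convL f).mkContinuous _ (norm_convL f)

/-- word length with respect to `S` -/
def wlen (S : Set Γ) (γ : Γ) : ℕ := sInf {n | γ ∈ (S ∪ S⁻¹) ^ n}

/-- the rapid decay inequality for the word length of `S` -/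
def RD (S : Set Γ) : Prop :=
  ∃ C s : ℝ, 0 < s ∧ ∀ f : Γ →₀ ℂ,
    ‖lam f‖ ≤ C * √(∑ γ ∈ f.support, ‖f γ‖ ^ 2 * (1 + (wlen S γ : ℝ)) ^ (2 * s))

/-- `S` is a finite generating set -/
def Gen (S : Set Γ) : Prop := S.Finite ∧ Subgroup.closure S = ⊤

/-- two groups have finite generating sets with isomorphic Cayley graphs -/
def SameCayley (Γ₁ Γ₂ : Type) [Group Γ₁] [Group Γ₂] : Prop :=
  ∃ (S₁ : Set Γ₁) (S₂ : Set Γ₂) (φ : Γ₁ ≃ Γ₂), Gen S₁ ∧ Gen S₂ ∧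
    ∀ x y : Γ₁, x⁻¹ * y ∈ S₁ ↔ (φ x)⁻¹ * φ y ∈ S₂

end Pool.Agent.P.MP_3426c0_an.H
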