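import Mathlib

/-!
A group with finite subgroups of order `2 ^ n` in word balls of linear radius fails the rapid
decay inequality for every finite generating set.
-/

set_option autoImplicit false

namespace Pool.Agent.P.MP_3426c0_an

open Pointwise Filter Topology

theorem pow_mono_of_one_mem {Γ : Type} [Group Γ] {S : Set Γ} (h : (1 : Γ) ∈ S) {m n : ℕ}
    (hmn : m ≤ n) : S ^ m ⊆ S ^ n := Set.pow_subset_pow_right h hmn

theorem exists_mem_pow {Γ : Type} [Group Γ] (S : Set Γ) (hS : Subgroup.closure S = ⊤) (t : Γ) :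
    ∃ k : ℕ, t ∈ (S ∪ S⁻¹ ∪ {1} : Set Γ) ^ k := by
  have ht : t ∈ Subgroup.closure S := by rw [hS]; trivial
  induction ht using Subgroup.closure_induction'' with
  | mem x hx => exact ⟨1, by simp [hx]⟩
  | inv_mem x hx => exact ⟨1, by simp [hx]⟩
  | one => exact ⟨0, by simp⟩
  | mul x y _ _ hx hy =>
    obtain ⟨k, hk⟩ := hx
    obtain ⟨l, hl⟩ := hy
    exact ⟨k + l, by rw [pow_add]; exact Set.mul_mem_mul hk hl⟩

theorem card_le_of_rd {Γ : Type} [Group Γ] (B : Set Γ) (c : ℝ)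
    (h : ∀ f g : Γ →₀ ℂ, (↑f.support : Set Γ) ⊆ B →
      (∑' x : Γ, ‖∑ y ∈ f.support, f y * g (y⁻¹ * x)‖ ^ 2) ≤
        c * (∑ y ∈ f.support, ‖f y‖ ^ 2) * (∑ y ∈ g.support, ‖g y‖ ^ 2))
    (Φ : Finset Γ) (hne : 0 < Φ.card) (hΦ : ∀ x ∈ Φ, ∀ y ∈ Φ, y⁻¹ * x ∈ Φ)
    (hB : ∀ x ∈ Φ, x ∈ B) : (Φ.card : ℝ) ≤ c := by
  classical
  let f : Γ →₀ ℂ := ⟨Φ, fun x => if x ∈ Φ then 1 else 0, by simp⟩
  have hf : ∀ x, f x = if x ∈ Φ then 1 else 0 := fun _ => rfl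
  have hs : f.support = Φ := rfl
  have key := h f f (by intro x hx; exact hB x hx)
  rw [hs] at key
  have h1 : ∑ y ∈ Φ, ‖f y‖ ^ 2 = Φ.card := by
    rw [Finset.sum_congr rfl (g := fun _ => (1 : ℝ)) fun y hy => by simp [hf, hy]]
    simp
  have hsum : Summable fun x : Γ => ‖∑ y ∈ Φ, f y * f (y⁻¹ * x)‖ ^ 2 := by
    refine summable_of_ne_finset_zero (s := Finset.image₂ (· * ·) Φ Φ) fun x hx => ?_
    have : ∑ y ∈ Φ, f y * f (y⁻¹ * x) = 0 := by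
      refine Finset.sum_eq_zero fun y hy => ?_
      have : y⁻¹ * x ∉ Φ := fun hm => hx (Finset.mem_image₂.2 ⟨y, hy, _, hm, by simp⟩)
      simp [hf, this]
    simp [this]
  have h2 := hsum.sum_le_tsum Φ fun _ _ => sq_nonneg _
  have h3 : ∑ x ∈ Φ, ‖∑ y ∈ Φ, f y * f (y⁻¹ * x)‖ ^ 2 = (Φ.card : ℝ) * Φ.card * Φ.card := by
    rw [Finset.sum_congr rfl (g := fun _ => (Φ.card : ℝ) ^ 2) fun x hx => ?_]
    · simp; ring
    · rw [Finset.sum_congr rfl (g := fun _ => (1 : ℂ)) fun y hy => by simp [hf, hy, hΦ x hx y hy]]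
      simp
  rw [h1] at key
  have h4 : (Φ.card : ℝ) * Φ.card * Φ.card ≤ c * Φ.card * Φ.card := by linarith
  have hpos : (0 : ℝ) < Φ.card := by exact_mod_cast hne
  exact le_of_mul_le_mul_right (le_of_mul_le_mul_right h4 hpos) hpos

theorem not_exp_le_poly (C : ℝ) (K d : ℕ) :
    ¬ ∀ n : ℕ, (2 : ℝ) ^ n ≤ C * (((K * (2 * n + 1) : ℕ) : ℝ) + 1) ^ d := by
  intro h
  have h1 := (tendsto_pow_const_div_const_pow_of_one_lt d (r := 2) one_lt_two).const_mul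
    (|C| * (3 * K + 1) ^ d)
  rw [mul_zero] at h1
  obtain ⟨n, hn, hn1⟩ := ((h1.eventually (gt_mem_nhds one_pos)).and (eventually_ge_atTop 1)).exists
  have h2 := h n
  have hn1' : (1 : ℝ) ≤ n := by exact_mod_cast hn1
  have hK : (0 : ℝ) ≤ K := Nat.cast_nonneg K
  have h3 : (((K * (2 * n + 1) : ℕ) : ℝ) + 1) ≤ (3 * K + 1) * n := by
    push_cast
    nlinarith
  have h4 : C * (((K * (2 * n + 1) : ℕ) : ℝ) + 1) ^ d ≤ |C| * ((3 * K + 1) * n) ^ d := by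
    refine (mul_le_mul_of_nonneg_right (le_abs_self C) (by positivity)).trans ?_
    gcongr
  rw [← mul_div_assoc, div_lt_one (by positivity), mul_assoc, ← mul_pow] at hn
  linarith

theorem not_rd {Γ : Type} [Group Γ] (T : Set Γ) (hT : T.Finite)
    (h : ∀ n : ℕ, ∃ Φ : Finset Γ, Φ.card = 2 ^ n ∧ (∀ x ∈ Φ, ∀ y ∈ Φ, y⁻¹ * x ∈ Φ) ∧
      ∀ x ∈ Φ, x ∈ T ^ (2 * n + 1)) :
    ¬ ∃ S : Set Γ, S.Finite ∧ Subgroup.closure S = ⊤ ∧
        ∃ C : ℝ, ∃ d : ℕ, ∀ n : ℕ, ∀ f g : Γ →₀ ℂ,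
          (↑f.support : Set Γ) ⊆ (S ∪ S⁻¹ ∪ {1} : Set Γ) ^ n →
          (∑' x : Γ, ‖∑ y ∈ f.support, f y * g (y⁻¹ * x)‖ ^ 2) ≤
            C * ((n : ℝ) + 1) ^ d * (∑ y ∈ f.support, ‖f y‖ ^ 2) *
              (∑ y ∈ g.support, ‖g y‖ ^ 2) := by
  rintro ⟨S, -, hS, C, d, hC⟩
  choose k hk using exists_mem_pow S hS
  obtain ⟨K, hK⟩ := (hT.image k).bddAbove
  have hTK : T ⊆ (S ∪ S⁻¹ ∪ {1} : Set Γ) ^ K := fun t ht =>
    pow_mono_of_one_mem (by simp) (hK (Set.mem_image_of_mem k ht)) (hk t)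
  refine not_exp_le_poly C K d fun n => ?_
  obtain ⟨Φ, h1, h2, h3⟩ := h n
  have := card_le_of_rd _ _ (hC (K * (2 * n + 1))) Φ (by rw [h1]; positivity) h2 fun x hx => by
    rw [pow_mul]
    exact Set.pow_subset_pow_left hTK (h3 x hx)
  rw [h1] at this
  exact_mod_cast this

end Pool.Agent.P.MP_3426c0_an
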