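import Pool.Agent.P.MP_3426c0_an.HDefs
import Pool.Agent.P.MP_3426c0_an.NonRD

/-!
The weighted operator norm form of rapid decay is equivalent to the polynomial bound on balls,
and does not depend on the generating set.
-/

set_option autoImplicit false

noncomputable section

namespace Pool.Agent.P.MP_3426c0_an.H

open Pointwise Filter Topology

variable {Γ : Type} [Group Γ]

/-- the polynomial bound on balls -/
def Ball (S : Set Γ) : Prop :=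
  ∃ C : ℝ, ∃ d : ℕ, ∀ n : ℕ, ∀ f g : Γ →₀ ℂ,
    (↑f.support : Set Γ) ⊆ (S ∪ S⁻¹ ∪ {1} : Set Γ) ^ n →
    (∑' x : Γ, ‖∑ y ∈ f.support, f y * g (y⁻¹ * x)‖ ^ 2) ≤
      C * ((n : ℝ) + 1) ^ d * (∑ y ∈ f.support, ‖f y‖ ^ 2) * (∑ y ∈ g.support, ‖g y‖ ^ 2)

theorem lam_apply (f : Γ →₀ ℂ) (g : L2 Γ) (x : Γ) :
    lam f g x = ∑ y ∈ f.support, f y * g (y⁻¹ * x) := rfl

omit [Group Γ] in
theorem norm_sq (g : L2 Γ) : ‖g‖ ^ 2 = ∑' x, ‖g x‖ ^ 2 := by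
  simpa using lp.norm_rpow_eq_tsum (p := 2) (by simp) g

/-- a finitely supported function as an element of `ℓ²` -/
def toL2 (g : Γ →₀ ℂ) : L2 Γ :=
  ⟨fun x => g x, (memℓp_gen_iff (by simp)).2
    (summable_of_ne_finset_zero (s := g.support) fun x hx => by
      simp [Finsupp.notMem_support_iff.1 hx])⟩

omit [Group Γ] in
theorem toL2_apply (g : Γ →₀ ℂ) (x : Γ) : toL2 g x = g x := rfl

omit [Group Γ] in
theorem norm_toL2 (g : Γ →₀ ℂ) : ‖toL2 g‖ ^ 2 = ∑ y ∈ g.support, ‖g y‖ ^ 2 := by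
  rw [norm_sq]
  exact tsum_eq_sum fun x hx => by simp [toL2_apply, Finsupp.notMem_support_iff.1 hx]

omit [Group Γ] in
theorem op_le (T : L2 Γ →L[ℂ] L2 Γ) {c : ℝ} (hc : 0 ≤ c)
    (h : ∀ g : Γ →₀ ℂ, ‖T (toL2 g)‖ ≤ c * ‖toL2 g‖) : ‖T‖ ≤ c := by
  classical
  refine T.opNorm_le_bound hc fun g => ?_
  have h1 : Tendsto (fun s : Finset Γ => ∑ i ∈ s, lp.single 2 i (g i)) atTop (𝓝 g) :=
    lp.hasSum_single (by simp) g
  refine le_of_tendsto_of_tendsto' ((T.continuous.tendsto g).comp h1).norm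
    (h1.norm.const_mul c) fun s => ?_
  have : ∑ i ∈ s, lp.single 2 i (g i) = toL2 (∑ i ∈ s, Finsupp.single i (g i)) := by
    ext x
    rw [lp.coeFn_sum, toL2_apply, Finset.sum_apply, Finsupp.finsetSum_apply]
    simp [lp.single_apply, Finsupp.single_apply, Pi.single_apply, eq_comm]
  simp only [Function.comp, this]
  exact h _

theorem mem_ball_iff {S : Set Γ} (n : ℕ) (γ : Γ) :
    γ ∈ (S ∪ S⁻¹ ∪ {1} : Set Γ) ^ n ↔ ∃ m ≤ n, γ ∈ (S ∪ S⁻¹) ^ m := by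
  refine ⟨fun h => ?_, fun ⟨m, hm, h⟩ => pow_mono_of_one_mem (by simp) hm
    (Set.pow_subset_pow_left Set.subset_union_left h)⟩
  induction n generalizing γ with
  | zero => exact ⟨0, le_rfl, by simpa using h⟩
  | succ n ih =>
    rw [pow_succ] at h
    obtain ⟨x, hx, y, hy, rfl⟩ := h
    obtain ⟨m, hm, h⟩ := ih x hx
    rcases hy with hy | rfl
    · exact ⟨m + 1, by omega, by rw [pow_succ]; exact Set.mul_mem_mul h hy⟩
    · exact ⟨m, by omega, by simpa using h⟩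

theorem mem_ball_iff_wlen {S : Set Γ} (hS : Subgroup.closure S = ⊤) (n : ℕ) (γ : Γ) :
    γ ∈ (S ∪ S⁻¹ ∪ {1} : Set Γ) ^ n ↔ wlen S γ ≤ n := by
  rw [mem_ball_iff]
  refine ⟨fun ⟨m, hm, h⟩ => (Nat.sInf_le h).trans hm, fun h => ⟨_, h, ?_⟩⟩
  obtain ⟨k, hk⟩ := exists_mem_pow S hS γ
  obtain ⟨m, -, hm⟩ := (mem_ball_iff k γ).1 hk
  exact Nat.sInf_mem (s := {n | γ ∈ (S ∪ S⁻¹) ^ n}) ⟨m, hm⟩

theorem Ball.change {S T : Set Γ} (h : Ball S) (hS : Subgroup.closure S = ⊤) (hT : T.Finite) :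
    Ball T := by
  obtain ⟨C, d, h⟩ := h
  choose k hk using exists_mem_pow S hS
  have hT' : (T ∪ T⁻¹ ∪ {1} : Set Γ).Finite := (hT.union hT.inv).union (Set.finite_singleton 1)
  obtain ⟨K, hK⟩ := (hT'.image k).bddAbove
  have hTK : (T ∪ T⁻¹ ∪ {1} : Set Γ) ⊆ (S ∪ S⁻¹ ∪ {1} : Set Γ) ^ K := fun t ht =>
    pow_mono_of_one_mem (by simp) (hK (Set.mem_image_of_mem k ht)) (hk t)
  refine ⟨|C| * (K + 1) ^ d, d, fun n f g hf => (h (K * n) f g (hf.trans ?_)).trans ?_⟩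
  · rw [pow_mul]
    exact Set.pow_subset_pow_left hTK
  · have h1 : ((K * n : ℕ) : ℝ) + 1 ≤ (K + 1) * (n + 1) := by
      push_cast
      nlinarith [Nat.cast_nonneg (α := ℝ) K, Nat.cast_nonneg (α := ℝ) n]
    rw [mul_assoc |C|, ← mul_pow]
    gcongr
    exact le_abs_self C

theorem RD.ball {S : Set Γ} (hS : Subgroup.closure S = ⊤) (h : RD S) : Ball S := by
  obtain ⟨C, s, hs, h⟩ := h
  refine ⟨C ^ 2, ⌈2 * s⌉₊, fun n f g hf => ?_⟩
  have h1 : (∑' x : Γ, ‖∑ y ∈ f.support, f y * g (y⁻¹ * x)‖ ^ 2) = ‖lam f (toL2 g)‖ ^ 2 := by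
    rw [norm_sq]
    simp only [lam_apply]
    rfl
  have h2 : ∑ γ ∈ f.support, ‖f γ‖ ^ 2 * (1 + (wlen S γ : ℝ)) ^ (2 * s) ≤
      ((n : ℝ) + 1) ^ ⌈2 * s⌉₊ * ∑ y ∈ f.support, ‖f y‖ ^ 2 := by
    rw [Finset.mul_sum]
    refine Finset.sum_le_sum fun y hy => ?_
    have h3 : (wlen S y : ℝ) ≤ n := by exact_mod_cast (mem_ball_iff_wlen hS n y).1 (hf hy)
    rw [mul_comm, ← Real.rpow_natCast (_ + 1), add_comm (1 : ℝ)]
    refine mul_le_mul_of_nonneg_right ?_ (sq_nonneg _)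
    calc _ ≤ ((n : ℝ) + 1) ^ (2 * s) := by gcongr
      _ ≤ _ := Real.rpow_le_rpow_of_exponent_le (by simp) (Nat.le_ceil _)
  have h4 : ‖lam f‖ ^ 2 ≤ C ^ 2 * (((n : ℝ) + 1) ^ ⌈2 * s⌉₊ * ∑ y ∈ f.support, ‖f y‖ ^ 2) := by
    refine (pow_le_pow_left₀ (norm_nonneg _) (h f) 2).trans ?_
    rw [mul_pow, Real.sq_sqrt (by positivity)]
    gcongr
  rw [h1, ← norm_toL2 g, mul_assoc (C ^ 2)]
  refine (pow_le_pow_left₀ (norm_nonneg _) ((lam f).le_opNorm _) 2).trans ?_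
  rw [mul_pow]
  gcongr

theorem Ball.op {S : Set Γ} (h : Ball S) : ∃ C : ℝ, 0 ≤ C ∧ ∃ d : ℕ, ∀ n : ℕ, ∀ f : Γ →₀ ℂ,
    (↑f.support : Set Γ) ⊆ (S ∪ S⁻¹ ∪ {1} : Set Γ) ^ n →
      ‖lam f‖ ≤ C * √(((n : ℝ) + 1) ^ d * ∑ y ∈ f.support, ‖f y‖ ^ 2) := by
  obtain ⟨C, d, h⟩ := h
  refine ⟨√|C|, Real.sqrt_nonneg _, d, fun n f hf => op_le _ (by positivity) fun g => ?_⟩
  refine (pow_le_pow_iff_left₀ (norm_nonneg _) (by positivity) two_ne_zero).1 ?_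
  rw [mul_pow, mul_pow, Real.sq_sqrt (abs_nonneg C), Real.sq_sqrt (by positivity), norm_toL2,
    norm_sq, ← mul_assoc]
  simp only [lam_apply]
  refine (h n f g hf).trans ?_
  gcongr
  exact le_abs_self C

theorem Ball.rd {S : Set Γ} (hS : Subgroup.closure S = ⊤) (h : Ball S) : RD S := by
  classical
  obtain ⟨C, hC, d, h⟩ := h.op
  have hz : Summable fun n : ℕ => (1 / ((n : ℝ) + 1)) ^ 2 := by
    simpa using (summable_nat_add_iff 1).2 (Real.summable_nat_pow_inv.2 one_lt_two)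
  refine ⟨C * √(∑' n : ℕ, (1 / ((n : ℝ) + 1)) ^ 2), (d + 2) / 2, by positivity, fun f => ?_⟩
  let F : ℕ → Γ →₀ ℂ := fun n => f.filter fun γ => wlen S γ = n
  let I := f.support.image (wlen S)
  have hI : ∀ γ ∈ f.support, wlen S γ ∈ I := fun γ hγ => Finset.mem_image_of_mem _ hγ
  have hF : ∀ n, ∀ γ ∈ f.support.filter fun γ => wlen S γ = n, F n γ = f γ := fun n γ hγ => by
    simp [F, (Finset.mem_filter.1 hγ).2]
  have h1 : lam f = ∑ n ∈ I, lam (F n) := by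
    ext g x
    rw [sum_apply, lp.coeFn_sum, Finset.sum_apply, lam_apply,
      ← Finset.sum_fiberwise_of_maps_to hI]
    refine Finset.sum_congr rfl fun n _ => ?_
    rw [lam_apply, Finsupp.support_filter]
    exact Finset.sum_congr rfl fun γ hγ => by rw [hF n γ hγ]
  let a : ℕ → ℝ := fun n => ((n : ℝ) + 1) ^ (d + 2) * ∑ y ∈ (F n).support, ‖F n y‖ ^ 2
  have ha : ∀ n, 0 ≤ a n := fun n => by positivity
  have h2 : ∀ n, ‖lam (F n)‖ ≤ C * (1 / ((n : ℝ) + 1) * √(a n)) := fun n => by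
    refine (h n (F n) fun γ hγ => (mem_ball_iff_wlen hS n γ).2 ?_).trans (le_of_eq ?_)
    · rw [Finsupp.support_filter] at hγ
      exact (Finset.mem_filter.1 hγ).2.le
    · have : a n = ((n : ℝ) + 1) ^ 2 * (((n : ℝ) + 1) ^ d * ∑ y ∈ (F n).support, ‖F n y‖ ^ 2) := by
        simp only [a]
        ring
      rw [this, Real.sqrt_mul (by positivity) (_ * _), Real.sqrt_sq (by positivity)]
      field_simp
  have h3 : ∑ n ∈ I, √(a n) ^ 2 =
      ∑ γ ∈ f.support, ‖f γ‖ ^ 2 * (1 + (wlen S γ : ℝ)) ^ (2 * (((d : ℝ) + 2) / 2)) := by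
    rw [← Finset.sum_fiberwise_of_maps_to hI]
    refine Finset.sum_congr rfl fun n _ => ?_
    rw [Real.sq_sqrt (ha n)]
    simp only [a]
    rw [Finsupp.support_filter, Finset.mul_sum]
    refine Finset.sum_congr rfl fun γ hγ => ?_
    rw [hF n γ hγ, (Finset.mem_filter.1 hγ).2, mul_comm, add_comm (1 : ℝ), ← Real.rpow_natCast (_ + 1)]
    congr 2
    push_cast
    ring
  rw [h1, mul_assoc, ← h3]
  refine (norm_sum_le _ _).trans ((Finset.sum_le_sum fun n _ => h2 n).trans ?_)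
  rw [← Finset.mul_sum, ← Real.sqrt_mul (tsum_nonneg fun _ => sq_nonneg _)]
  gcongr
  refine Real.le_sqrt_of_sq_le ((Finset.sum_mul_sq_le_sq_mul_sq _ _ _).trans ?_)
  gcongr
  exact hz.sum_le_tsum _ fun _ _ => sq_nonneg _

end Pool.Agent.P.MP_3426c0_an.H
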