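import Mathlib
import Pool.Agent.P.MP_3426c0_an.Aut
import Pool.Agent.P.MP_3426c0_an.NonRD
import Pool.Agent.P.MP_3426c0_an.Centroid

/-!
Two simply transitive groups of automorphisms of the Cayley graph of
`X = {(x, y) ∈ F₂ × F₂ | height x = height y}`: the left translations, and a twisted group that
contains `(ℤ/2)^n` in a ball of radius `2 n + 1`.
-/

set_option autoImplicit false

namespace Pool.Agent.P.MP_3426c0_an

open FreeGroup Pointwise

abbrev A := ZMod 2
abbrev F := FreeGroup A

/-- the map `F → Y` that turns right multiplication by generators into given permutations -/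
def build {Y : Type} (P : A → Equiv.Perm Y) (y0 : Y) (x : F) : Y :=
  (FreeGroup.lift (fun s => (P s)⁻¹) x⁻¹) y0

theorem build_one {Y : Type} (P : A → Equiv.Perm Y) (y0 : Y) : build P y0 1 = y0 := by
  simp [build]

theorem build_mul_of {Y : Type} (P : A → Equiv.Perm Y) (y0 : Y) (x : F) (s : A) :
    build P y0 (x * of s) = P s (build P y0 x) := by
  simp [build]

theorem ind {p : F → Prop} (h1 : p 1) (h : ∀ x s, p x ↔ p (x * of s)) (x : F) : p x := by
  have : ∀ y : F, ∀ x, p x ↔ p (x * y) := by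
    intro y
    induction y using FreeGroup.induction_on with
    | C1 => simp
    | of s => exact fun x => h x s
    | inv_of s _ => intro x; rw [h (x * (of s)⁻¹) s]; simp
    | mul y z hy hz => intro x; rw [← mul_assoc, ← hz, ← hy]
  simpa using (this x 1).1 h1

def htHom : F →* Multiplicative ℤ := FreeGroup.lift fun _ => Multiplicative.ofAdd 1

/-- height -/
def ht (x : F) : ℤ := (htHom x).toAdd

@[simp] theorem ht_one : ht 1 = 0 := by simp [ht]
@[simp] theorem ht_mul (x y : F) : ht (x * y) = ht x + ht y := by simp [ht]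
@[simp] theorem ht_inv (x : F) : ht x⁻¹ = -ht x := by simp [ht]
@[simp] theorem ht_of (s : A) : ht (of s) = 1 := by simp [ht, htHom]
@[simp] theorem ht_zpow (x : F) (n : ℤ) : ht (x ^ n) = n * ht x := by simp [ht]
@[simp] theorem ht_pow (x : F) (n : ℕ) : ht (x ^ n) = n * ht x := by simp [ht]

def cfgPerm (s : A) : Equiv.Perm (ℤ × (ℤ → A)) where
  toFun u := (u.1 + 1, u.2 + Pi.single u.1 s)
  invFun u := (u.1 - 1, u.2 - Pi.single (u.1 - 1) s)
  left_inv u := by simp
  right_inv u := by simp

/-- lamp configuration -/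
def cfg (x : F) : ℤ → A := (build cfgPerm (0, 0) x).2

theorem cfg_fst (x : F) : (build cfgPerm (0, 0) x).1 = ht x := by
  induction x using ind with
  | h1 => simp [build_one]
  | h x s => simp [build_mul_of, cfgPerm]

@[simp] theorem cfg_one : cfg 1 = 0 := by simp [cfg, build_one]

theorem cfg_mul_of (x : F) (s : A) : cfg (x * of s) = cfg x + Pi.single (ht x) s := by
  simp [cfg, build_mul_of, cfgPerm, cfg_fst]

def stepPerm (β : ℤ → A) (s : A) : Equiv.Perm F where
  toFun v := v * of (s + β (ht v))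
  invFun v := v * (of (s + β (ht v - 1)))⁻¹
  left_inv v := by simp
  right_inv v := by simp [← sub_eq_add_neg]

/-- relabelling of the edges of the Cayley tree, level by level -/
def sig (β : ℤ → A) (x : F) : F := build (stepPerm β) 1 x

/-- `σ` relabels the edges from level `k` to level `k + 1` by adding `β k` -/
def Step (β : ℤ → A) (σ : F → F) : Prop := ∀ x s, σ (x * of s) = σ x * of (s + β (ht x))

@[simp] theorem sig_one (β : ℤ → A) : sig β 1 = 1 := build_one _ _

@[simp] theorem ht_sig (β : ℤ → A) (x : F) : ht (sig β x) = ht x := by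
  induction x using ind with
  | h1 => simp
  | h x s => simp [sig, build_mul_of, stepPerm]

theorem step_sig (β : ℤ → A) : Step β (sig β) := by
  intro x s
  have := ht_sig β x
  simp only [sig] at this
  simp [sig, build_mul_of, stepPerm, this]

theorem Step.ht_eq {β : ℤ → A} {σ : F → F} (h : Step β σ) (x : F) :
    ht (σ x) = ht (σ 1) + ht x := by
  induction x using ind with
  | h1 => simp
  | h x s => rw [h x s]; simp [← add_assoc]

theorem Step.ext {β : ℤ → A} {σ τ : F → F} (h : Step β σ) (h' : Step β τ) (z : F)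
    (hz : σ z = τ z) (x : F) : σ x = τ x := by
  have : ∀ y : F, σ (z * y) = τ (z * y) := by
    intro y
    induction y using ind with
    | h1 => simpa using hz
    | h y s => rw [← mul_assoc, h, h']; simp
  simpa using this (z⁻¹ * x)

theorem Step.mul_left {β : ℤ → A} {σ : F → F} (h : Step β σ) (g : F) :
    Step β fun x => g * σ x := fun x s => by simp only [h x s, mul_assoc]

theorem Step.comp {β β' : ℤ → A} {σ τ : F → F} (h : Step β σ) (h' : Step β' τ)
    (h0 : ht (τ 1) = 0) : Step (β + β') fun x => σ (τ x) := fun x s => by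
  simp only [h' x s, h (τ x), h'.ht_eq x, h0, zero_add, Pi.add_apply]
  congr 2
  ring

theorem step_id : Step 0 fun x => x := fun x s => by simp

theorem sig_sig (β β' : ℤ → A) (x : F) : sig β (sig β' x) = sig (β + β') x :=
  ((step_sig β).comp (step_sig β') (by simp)).ext (step_sig _) 1 (by simp) x

theorem sig_zero (x : F) : sig 0 x = x := (step_sig 0).ext step_id 1 (by simp) x

theorem Step.bijective {β : ℤ → A} {σ : F → F} (h : Step β σ) : Function.Bijective σ := by
  have h1 : σ = fun x => σ 1 * sig β x :=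
    funext (h.ext ((step_sig β).mul_left (σ 1)) 1 (by simp))
  have h2 : Function.Bijective (sig β) :=
    Function.bijective_iff_has_inverse.2 ⟨sig (-β), fun x => by simp [sig_sig, sig_zero],
      fun x => by simp [sig_sig, sig_zero]⟩
  rw [h1]
  exact (Group.mulLeft_bijective (σ 1)).comp h2

theorem Step.cfg_pow {β : ℤ → A} {σ : F → F} (h : Step β σ) (h0 : ht (σ 1) = 0) (m : ℕ) :
    cfg (σ (of 0 ^ m)) = cfg (σ 1) + ∑ k ∈ Finset.range m, Pi.single (k : ℤ) (β k) := by
  induction m with
  | zero => simp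
  | succ m ih =>
    rw [pow_succ, h, cfg_mul_of, ih, Finset.sum_range_succ, h.ht_eq, h0]
    simp [add_assoc]

/-- the level set in the product of two free groups -/
def X : Subgroup (F × F) where
  carrier := {p | ht p.1 = ht p.2}
  mul_mem' := by intro p q hp hq; simp only [Set.mem_ofPred_eq] at *; simp [hp, hq]
  one_mem' := rfl
  inv_mem' := by intro p hp; simp only [Set.mem_ofPred_eq] at *; simp [hp]

theorem mem_X {p : F × F} : p ∈ X ↔ ht p.1 = ht p.2 := Iff.rfl

def gen (s t : A) : X := ⟨(of s, of t), by simp [mem_X]⟩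

theorem indX {p : X → Prop} (h1 : p 1) (h : ∀ x s t, p x ↔ p (x * gen s t)) (x : X) : p x := by
  let e1 : F → X := fun u => ⟨(u, of 0 ^ ht u), by simp [mem_X]⟩
  let e2 : F → X := fun u => ⟨(of 0 ^ ht u, u), by simp [mem_X]⟩
  have k1 : ∀ u : F, ∀ q, p q ↔ p (q * e1 u) := by
    intro u
    induction u using ind with
    | h1 => intro q; rw [show e1 1 = 1 from Subtype.ext (by simp [e1]), mul_one]
    | h u s =>
      have : e1 (u * of s) = e1 u * gen s 0 := Subtype.ext (by simp [e1, gen, zpow_add])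
      simp only [this, ← mul_assoc, ← h]
  have k2 : ∀ u : F, ∀ q, p q ↔ p (q * e2 u) := by
    intro u
    induction u using ind with
    | h1 => intro q; rw [show e2 1 = 1 from Subtype.ext (by simp [e2]), mul_one]
    | h u s =>
      have : e2 (u * of s) = e2 u * gen 0 s := Subtype.ext (by simp [e2, gen, zpow_add])
      simp only [this, ← mul_assoc, ← h]
  obtain ⟨⟨x, y⟩, hxy⟩ := x
  have hxy' : ht x = ht y := hxy
  have : (⟨(x, y), hxy⟩ : X) = 1 * e1 x * e2 ((of 0 ^ ht x)⁻¹ * y) :=
    Subtype.ext (by simp [e1, e2, hxy'])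
  rw [this, ← k2, ← k1]
  exact h1

/-- adjacency (with loops) in the Cayley graph of `X` -/
def adj (p q : X) : Prop := q = p ∨ ∃ s t, q = p * gen s t ∨ p = q * gen s t

theorem adj_refl (p : X) : adj p p := Or.inl rfl

theorem adj_finite (p : X) : {q | adj p q}.Finite := by
  refine (((Set.finite_range fun u : A × A => p * gen u.1 u.2).union
    (Set.finite_range fun u : A × A => p * (gen u.1 u.2)⁻¹)).insert p).subset ?_
  rintro q (rfl | ⟨s, t, rfl | rfl⟩)
  · exact Or.inl rfl
  · exact Or.inr (Or.inl ⟨(s, t), rfl⟩)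
  · exact Or.inr (Or.inr ⟨(s, t), by simp⟩)

theorem adj_conn (a b : X) : ∃ n, b ∈ ball adj a n := by
  have : ∀ z : X, ∃ n, a * z ∈ ball adj a n := by
    intro z
    induction z using indX with
    | h1 => exact ⟨0, by simp [ball]⟩
    | h z s t =>
      constructor
      · rintro ⟨n, hn⟩
        exact ⟨n + 1, _, hn, Or.inr ⟨s, t, Or.inl (mul_assoc _ _ _).symm⟩⟩
      · rintro ⟨n, hn⟩
        exact ⟨n + 1, _, hn, Or.inr ⟨s, t, Or.inr (mul_assoc _ _ _).symm⟩⟩
  simpa using this (a⁻¹ * b)

/-- a bijection that relabels the rising edges is an automorphism of the graph -/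
def mkAut (e : X ≃ X) (b : X → A)
    (h : ∀ p s t, e (p * gen s t) = e p * gen (s + b p) (t + b p)) : adj ≃r adj where
  toEquiv := e
  map_rel_iff' := by
    have key : ∀ p q : X, (∃ s t, e q = e p * gen s t) ↔ ∃ s t, q = p * gen s t := by
      intro p q
      constructor
      · rintro ⟨s, t, hq⟩
        exact ⟨s - b p, t - b p, e.injective (by rw [h, hq]; simp)⟩
      · rintro ⟨s, t, rfl⟩
        exact ⟨_, _, h p s t⟩
    intro p q
    simp only [adj, exists_or, key, e.injective.eq_iff]

/-- twisted right multiplication -/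
def twist (b : X → A) (s t : A) (p : X) : X := p * gen (s + b p) (t + b p)

/-- automorphisms commuting with the twisted right multiplications -/
def comm (b : X → A) : Subgroup (adj ≃r adj) where
  carrier := {γ | ∀ s t p, γ (twist b s t p) = twist b s t (γ p)}
  mul_mem' := by
    intro γ δ hγ hδ s t p
    simp only [RelIso.mul_apply, hδ s t, hγ s t]
  one_mem' := fun _ _ _ => rfl
  inv_mem' := by
    intro γ hγ s t p
    apply γ.injective
    rw [hγ s t]
    simp

theorem comm_free (b : X → A) (hb : ∀ s t, Function.Injective (twist b s t)) :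
    ∀ γ ∈ comm b, γ 1 = 1 → γ = 1 := by
  intro γ hγ h1
  refine RelIso.ext fun p => ?_
  rw [RelIso.one_apply]
  induction p using indX with
  | h1 => exact h1
  | h p s t =>
    have : p * gen s t = twist b (s - b p) (t - b p) p := by simp [twist]
    rw [this, hγ, (hb _ _).eq_iff]

/-! ### the untwisted lattice -/

theorem comm_zero_apply {γ : adj ≃r adj} (hγ : γ ∈ comm 0) (p : X) : γ p = γ 1 * p := by
  induction p using indX with
  | h1 => simp
  | h p s t =>
    have := hγ s t p
    simp only [twist, Pi.zero_apply, add_zero] at this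
    rw [this, ← mul_assoc, mul_left_inj]

theorem comm_zero_free : ∀ γ ∈ comm 0, γ 1 = 1 → γ = 1 :=
  comm_free 0 fun s t p q h => by simpa [twist] using h

theorem comm_zero_trans (q : X) : ∃ γ ∈ comm 0, γ 1 = q :=
  ⟨mkAut (Equiv.mulLeft q) 0 (by simp [mul_assoc]), fun s t p => by
    simp [mkAut, twist, mul_assoc], by simp [mkAut]⟩

def iota : comm 0 →* F × F where
  toFun γ := ((γ : adj ≃r adj) 1 : X)
  map_one' := rfl
  map_mul' γ δ := by
    rw [Subgroup.coe_mul, RelIso.mul_apply, comm_zero_apply γ.2]; rfl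

theorem iota_apply (γ : comm 0) : iota γ = ((γ : adj ≃r adj) 1 : X) := rfl

theorem iota_injective : Function.Injective iota := by
  rw [injective_iff_map_eq_one]
  intro γ h
  exact Subtype.ext (comm_zero_free γ γ.2 (Subtype.ext h))

theorem rd_comm_zero : ∃ S : Set (comm 0), S.Finite ∧ Subgroup.closure S = ⊤ ∧
    ∃ C : ℝ, ∃ d : ℕ, ∀ n : ℕ, ∀ f g : comm 0 →₀ ℂ,
      (↑f.support : Set (comm 0)) ⊆ (S ∪ S⁻¹ ∪ {1} : Set (comm 0)) ^ n →
      (∑' x : comm 0, ‖∑ y ∈ f.support, f y * g (y⁻¹ * x)‖ ^ 2) ≤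
        C * ((n : ℝ) + 1) ^ d * (∑ y ∈ f.support, ‖f y‖ ^ 2) *
          (∑ y ∈ g.support, ‖g y‖ ^ 2) := by
  refine ⟨gens (comm 0) 1, gens_finite adj_finite _ _ comm_zero_free,
    closure_gens adj_refl _ _ (adj_conn 1) comm_zero_trans, 1, 6, fun n f g hf => ?_⟩
  have hc := (hasCentroid_freeGroup A).prod (hasCentroid_freeGroup A)
  set S := gens (comm 0) 1 with hS
  have h1 : ∀ y ∈ S, max (iota y).1.norm (iota y).2.norm ≤ 1 := by
    intro y hy
    rcases hy with h | ⟨s, t, h | h⟩
    · have : iota y = 1 := congrArg Subtype.val h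
      simp [this]
    · have : iota y = (of s, of t) := by
        have := congrArg Subtype.val h
        rw [iota_apply]
        simpa [gen] using this
      simp [this]
    · have : iota y = ((of s)⁻¹, (of t)⁻¹) := by
        have := congrArg Subtype.val (eq_mul_inv_of_mul_eq h.symm)
        rw [iota_apply]
        simpa [gen] using this
      simp [this]
  have h2 : ∀ y ∈ (S ∪ S⁻¹ ∪ {1} : Set (comm 0)), max (iota y).1.norm (iota y).2.norm ≤ 1 := by
    rintro y ((hy | hy) | hy)
    · exact h1 y hy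
    · simpa using h1 _ hy
    · simp only [Set.mem_singleton_iff] at hy
      simp [hy]
  have h3 : ∀ m : ℕ, ∀ y ∈ (S ∪ S⁻¹ ∪ {1} : Set (comm 0)) ^ m,
      max (iota y).1.norm (iota y).2.norm ≤ m := by
    intro m
    induction m with
    | zero => intro y hy; simp at hy; simp [hy]
    | succ m ih =>
      rw [pow_succ]
      rintro _ ⟨y, hy, z, hz, rfl⟩
      have a1 := ih y hy
      have a2 := h2 z hz
      have a3 := norm_mul_le (iota y).1 (iota z).1
      have a4 := norm_mul_le (iota y).2 (iota z).2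
      simp only [_root_.map_mul, Prod.fst_mul, Prod.snd_mul]
      omega
  have := hc.rd iota iota_injective n f g fun y hy => h3 n y (hf hy)
  refine this.trans (le_of_eq ?_)
  push_cast
  ring

/-! ### the twisted lattice -/

def D (p : X) : ℤ → A := cfg p.1.1 - cfg p.1.2

def htX (p : X) : ℤ := ht p.1.1

theorem htX_mul_gen (p : X) (s t : A) : htX (p * gen s t) = htX p + 1 := by simp [htX, gen]

theorem D_mul_gen (p : X) (s t : A) : D (p * gen s t) = D p + Pi.single (htX p) (s - t) := by
  have hp : ht p.1.1 = ht p.1.2 := p.2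
  simp only [D, htX, gen, Subgroup.coe_mul, Prod.fst_mul, Prod.snd_mul, cfg_mul_of, ← hp,
    Pi.single_sub]
  abel

def bD (p : X) : A := D p (htX p)

theorem twist_bD_injective (s t : A) : Function.Injective (twist bD s t) := by
  intro p q h
  have h1 : htX p = htX q := by
    have := congrArg htX h
    simpa [twist, htX_mul_gen] using this
  have h2 : D p = D q := by
    have := congrArg D h
    simpa [twist, D_mul_gen, h1] using this
  have h3 : bD p = bD q := by simp [bD, h1, h2]
  simpa [twist, h3] using h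

theorem comm_bD_free : ∀ γ ∈ comm bD, γ 1 = 1 → γ = 1 := comm_free bD twist_bD_injective

def pairFun {β : ℤ → A} {σ τ : F → F} (hσ : Step β σ) (hτ : Step β τ)
    (h : ht (σ 1) = ht (τ 1)) (p : X) : X :=
  ⟨(σ p.1.1, τ p.1.2), by
    have hp : ht p.1.1 = ht p.1.2 := p.2
    rw [mem_X, hσ.ht_eq, hτ.ht_eq, h, hp]⟩

theorem pairFun_bijective {β : ℤ → A} {σ τ : F → F} (hσ : Step β σ) (hτ : Step β τ)
    (h : ht (σ 1) = ht (τ 1)) : Function.Bijective (pairFun hσ hτ h) := by
  constructor
  · intro p q hpq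
    have := congrArg Subtype.val hpq
    simp only [pairFun, Prod.mk.injEq] at this
    exact Subtype.ext (Prod.ext (hσ.bijective.1 this.1) (hτ.bijective.1 this.2))
  · rintro ⟨⟨x, y⟩, hxy⟩
    obtain ⟨x', rfl⟩ := hσ.bijective.2 x
    obtain ⟨y', rfl⟩ := hτ.bijective.2 y
    refine ⟨⟨(x', y'), ?_⟩, rfl⟩
    rw [mem_X, hσ.ht_eq, hτ.ht_eq, h] at hxy
    simpa [mem_X] using hxy

theorem pairFun_mul_gen {β : ℤ → A} {σ τ : F → F} (hσ : Step β σ) (hτ : Step β τ)
    (h : ht (σ 1) = ht (τ 1)) (p : X) (s t : A) :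
    pairFun hσ hτ h (p * gen s t) =
      pairFun hσ hτ h p * gen (s + β (htX p)) (t + β (htX p)) := by
  have hp : ht p.1.1 = ht p.1.2 := p.2
  apply Subtype.ext
  simp [pairFun, gen, hσ _, hτ _, htX, hp]

noncomputable def pairAut {β : ℤ → A} {σ τ : F → F} (hσ : Step β σ) (hτ : Step β τ)
    (h : ht (σ 1) = ht (τ 1)) : adj ≃r adj :=
  mkAut (Equiv.ofBijective _ (pairFun_bijective hσ hτ h)) (fun p => β (htX p))
    (pairFun_mul_gen hσ hτ h)

theorem pairAut_apply {β : ℤ → A} {σ τ : F → F} (hσ : Step β σ) (hτ : Step β τ)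
    (h : ht (σ 1) = ht (τ 1)) (p : X) : pairAut hσ hτ h p = pairFun hσ hτ h p := rfl

theorem pairAut_mem {β : ℤ → A} {σ τ : F → F} (hσ : Step β σ) (hτ : Step β τ)
    (h : ht (σ 1) = ht (τ 1)) (hβ : ∀ k, β k = (cfg (σ 1) - cfg (τ 1)) (k + ht (σ 1))) :
    pairAut hσ hτ h ∈ comm bD := by
  have h1 : ∀ p, htX (pairFun hσ hτ h p) = htX p + ht (σ 1) := fun p => by
    simp only [htX, pairFun]
    rw [hσ.ht_eq, add_comm]
  have h2 : ∀ p k, D (pairFun hσ hτ h p) (k + ht (σ 1)) = β k + D p k := by
    intro p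
    induction p using indX with
    | h1 => intro k; simp [D, pairFun, hβ]
    | h p s t =>
      rw [pairFun_mul_gen, D_mul_gen, D_mul_gen, h1]
      refine forall_congr' fun k => ?_
      simp only [Pi.add_apply, Pi.single_apply, add_left_inj, add_sub_add_right_eq_sub,
        ← add_assoc]
  intro s t p
  simp only [pairAut_apply, twist, pairFun_mul_gen, bD, h1, h2]
  congr 2 <;> ring

theorem comm_bD_trans (q : X) : ∃ γ ∈ comm bD, γ 1 = q := by
  have hq : ht q.1.1 = ht q.1.2 := q.2
  set β : ℤ → A := fun k => D q (k + htX q) with hβ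
  refine ⟨pairAut ((step_sig β).mul_left q.1.1) ((step_sig β).mul_left q.1.2) (by simp [hq]),
    pairAut_mem _ _ _ fun k => by simp [hβ, D, htX], ?_⟩
  apply Subtype.ext
  simp [pairAut_apply, pairFun]

def rho (n : ℕ) (β : ℤ → A) (y : F) : F := of 0 ^ n * (sig β (of 0 ^ n))⁻¹ * sig β y

theorem step_rho (n : ℕ) (β : ℤ → A) : Step β (rho n β) := (step_sig β).mul_left _

theorem ht_rho_one (n : ℕ) (β : ℤ → A) : ht (rho n β 1) = 0 := by simp [rho]

theorem rho_pow (n : ℕ) (β : ℤ → A) : rho n β (of 0 ^ n) = of 0 ^ n := by simp [rho]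

theorem rho_rho (n : ℕ) (β β' : ℤ → A) (y : F) : rho n β (rho n β' y) = rho n (β + β') y :=
  ((step_rho n β).comp (step_rho n β') (ht_rho_one n β')).ext (step_rho n _) (of 0 ^ n)
    (by simp only [rho_pow]) y

theorem cfg_rho_one (n : ℕ) (β : ℤ → A) :
    cfg (rho n β 1) = -∑ k ∈ Finset.range n, Pi.single (k : ℤ) (β k) := by
  have h1 := (step_rho n β).cfg_pow (ht_rho_one n β) n
  have h2 := step_id.cfg_pow (by simp) n
  simp only [cfg_one, Pi.zero_apply, Pi.single_zero, Finset.sum_const_zero, add_zero] at h2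
  rw [rho_pow, h2] at h1
  exact eq_neg_of_add_eq_zero_left h1.symm

def lamp {n : ℕ} (v : Fin n → A) : ℤ → A := ∑ i : Fin n, Pi.single ((i : ℕ) : ℤ) (v i)

theorem lamp_apply {n : ℕ} (v : Fin n → A) (i : Fin n) : lamp v ((i : ℕ) : ℤ) = v i := by
  simp only [lamp, Finset.sum_apply]
  rw [Finset.sum_eq_single i]
  · simp
  · intro j _ hj
    refine Pi.single_eq_of_ne (fun h => hj ?_) _
    exact Fin.ext (by exact_mod_cast h.symm)
  · simp

theorem lamp_add {n : ℕ} (v w : Fin n → A) : lamp (v + w) = lamp v + lamp w := by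
  simp [lamp, Pi.single_add, Finset.sum_add_distrib]

theorem cfg_rho_lamp {n : ℕ} (v : Fin n → A) : cfg (rho n (lamp v) 1) = -lamp v := by
  rw [cfg_rho_one, ← Fin.sum_univ_eq_sum_range
    (fun k : ℕ => (Pi.single (k : ℤ) (lamp v k) : ℤ → A))]
  simp only [lamp_apply]
  rfl

noncomputable def torsion {n : ℕ} (v : Fin n → A) : comm bD :=
  ⟨pairAut (step_sig (lamp v)) (step_rho n (lamp v)) (by simp [ht_rho_one]),
    pairAut_mem _ _ _ fun k => by simp [cfg_rho_lamp]⟩

theorem torsion_add {n : ℕ} (v w : Fin n → A) : torsion (v + w) = torsion v * torsion w := by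
  refine Subtype.ext (RelIso.ext fun p => Subtype.ext ?_)
  simp [torsion, RelIso.mul_apply, pairAut_apply, pairFun, sig_sig, rho_rho, lamp_add]

theorem torsion_injective {n : ℕ} : Function.Injective (torsion : (Fin n → A) → comm bD) := by
  intro v w h
  have h1 := congrArg (fun γ : comm bD => cfg ((γ : adj ≃r adj) 1).1.2) h
  simp only [torsion, pairAut_apply, pairFun, OneMemClass.coe_one, Prod.snd_one, cfg_rho_lamp,
    neg_inj] at h1
  funext i
  rw [← lamp_apply v, h1, lamp_apply]

theorem torsion_mem_ball {n : ℕ} (v : Fin n → A) :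
    (torsion v : adj ≃r adj) 1 ∈ ball adj 1 (2 * n) := by
  set β := lamp v with hβ
  let u : ℕ → X := fun m => ⟨(of 0 ^ m, of 0 ^ m), rfl⟩
  let w : ℕ → X := fun m => ⟨(of 0 ^ m, rho n β (of 0 ^ m)), by
    rw [mem_X, (step_rho n β).ht_eq, ht_rho_one]; simp⟩
  have h1 : ∀ m, u m ∈ ball adj 1 m := by
    intro m
    induction m with
    | zero => exact Subtype.ext (by simp [u])
    | succ m ih =>
      exact ⟨u m, ih, Or.inr ⟨0, 0, Or.inl (Subtype.ext (by simp [u, gen, pow_succ]))⟩⟩
  have h2 : ∀ j m, m + j = n → w m ∈ ball adj 1 (n + j) := by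
    intro j
    induction j with
    | zero =>
      intro m hm
      have : w m = u n := Subtype.ext (by simp [u, w, ← hm, rho])
      rw [this]; exact h1 n
    | succ j ih =>
      intro m hm
      refine ⟨w (m + 1), ih (m + 1) (by omega), Or.inr ⟨0, β m, Or.inr (Subtype.ext ?_)⟩⟩
      simp [w, gen, pow_succ, step_rho n β _]
  have h3 := h2 n 0 (by simp)
  rw [two_mul]
  convert h3 using 1
  apply Subtype.ext
  simp [torsion, pairAut_apply, pairFun, w, hβ]

theorem not_rd_comm_bD : ¬ ∃ S : Set (comm bD), S.Finite ∧ Subgroup.closure S = ⊤ ∧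
    ∃ C : ℝ, ∃ d : ℕ, ∀ n : ℕ, ∀ f g : comm bD →₀ ℂ,
      (↑f.support : Set (comm bD)) ⊆ (S ∪ S⁻¹ ∪ {1} : Set (comm bD)) ^ n →
      (∑' x : comm bD, ‖∑ y ∈ f.support, f y * g (y⁻¹ * x)‖ ^ 2) ≤
        C * ((n : ℝ) + 1) ^ d * (∑ y ∈ f.support, ‖f y‖ ^ 2) *
          (∑ y ∈ g.support, ‖g y‖ ^ 2) := by
  classical
  refine not_rd (gens (comm bD) 1) (gens_finite adj_finite _ _ comm_bD_free) fun n => ?_
  refine ⟨Finset.univ.image (torsion (n := n)), ?_, ?_, ?_⟩
  · rw [Finset.card_image_of_injective _ torsion_injective]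
    simp
  · intro x hx y hy
    obtain ⟨v, -, rfl⟩ := Finset.mem_image.1 hx
    obtain ⟨w, -, rfl⟩ := Finset.mem_image.1 hy
    refine Finset.mem_image.2 ⟨v - w, Finset.mem_univ _, ?_⟩
    rw [eq_inv_mul_iff_mul_eq, ← torsion_add]
    simp
  · intro x hx
    obtain ⟨v, -, rfl⟩ := Finset.mem_image.1 hx
    exact mem_gens_pow adj_refl _ _ comm_bD_trans _ _ (torsion_mem_ball v)

end Pool.Agent.P.MP_3426c0_an
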